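import Mathlib
import Pool.Agent.P.MP_4722b0_al.Sl2

namespace Pool.Agent.Results.MP_4722b0_al.Disproof

open Polynomial Module Pool.Agent.P.MP_4722b0_al

/-- A square matrix is irreducible tridiagonal: entries with `|i - j| > 1` vanish, and the entries
directly above and directly below the main diagonal are all nonzero. -/
def IsIrredTridiagonal {K : Type} [Field K] {n : ℕ} (M : Matrix (Fin n) (Fin n) K) : Prop :=
  (∀ i j : Fin n, (i : ℕ) + 1 < j ∨ (j : ℕ) + 1 < i → M i j = 0) ∧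
    (∀ i j : Fin n, (i : ℕ) + 1 = j → M i j ≠ 0 ∧ M j i ≠ 0)

/-- There is a basis of `V` in which `X` is diagonal and `Y`, `Z` are irreducible tridiagonal. -/
def DiagTriTri {K V : Type} [Field K] [AddCommGroup V] [Module K V] (X Y Z : V →ₗ[K] V) : Prop :=
  ∃ (n : ℕ) (b : Basis (Fin n) K V), (LinearMap.toMatrix b b X).IsDiag ∧
    IsIrredTridiagonal (LinearMap.toMatrix b b Y) ∧ IsIrredTridiagonal (LinearMap.toMatrix b b Z)

/-- `A, B, E` is a Leonard triple on `V`. -/
def IsLeonardTriple {K V : Type} [Field K] [AddCommGroup V] [Module K V] (A B E : V →ₗ[K] V) :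
    Prop :=
  DiagTriTri A B E ∧ DiagTriTri B A E ∧ DiagTriTri E A B

lemma symT_isDiag {K : Type} [Field K] (d : ℕ) (a e : K) : (symT d a 0 0 e).IsDiag := by
  intro i j hij
  simp [symT_diag, hij]

lemma symT_irred {K : Type} [Field K] [CharZero K] (d : ℕ) (a b c e : K) (hb : b ≠ 0)
    (hc : c ≠ 0) : IsIrredTridiagonal (symT d a b c e) := by
  refine ⟨fun i j h => ?_, fun i j h => ⟨?_, ?_⟩⟩
  · simp only [symT]
    rw [if_neg (by omega), if_neg (by omega), if_neg (by omega)]
    simp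
  · simp only [symT]
    rw [if_neg (by omega), if_neg (by omega), if_pos h]
    have : ((j : ℕ) : K) ≠ 0 := Nat.cast_ne_zero.2 (by omega)
    simp [this, hb]
  · simp only [symT]
    rw [if_neg (by omega), if_pos h.symm, if_neg (by omega)]
    have : ((d - i : ℕ) : K) ≠ 0 := Nat.cast_ne_zero.2 (by have := j.2; omega)
    simp [this, hc]

/-- Over every field of characteristic zero, every space of finite dimension at least three carries
a Leonard triple `A, B, E` for which `A B - q B A` lies outside the span of `I, A, B, E` for every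
scalar `q`. -/
theorem result (K V : Type) [Field K] [CharZero K] [AddCommGroup V] [Module K V]
    [FiniteDimensional K V] (hV : 3 ≤ Module.finrank K V) :
    ∃ A B E : V →ₗ[K] V, IsLeonardTriple A B E ∧
      ∀ q : K, A ∘ₗ B - q • (B ∘ₗ A) ∉
        Submodule.span K ({LinearMap.id, A, B, E} : Set (V →ₗ[K] V)) := by
  obtain ⟨d, hd⟩ : ∃ d, Module.finrank K V = d + 1 := ⟨Module.finrank K V - 1, by omega⟩
  have hd2 : 2 ≤ d := by omega
  let b0 : Basis (Fin (d + 1)) K V := Module.finBasisOfFinrankEq K V hd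
  have hA := emb_toLin b0 (1 : K[X]) (-2 * X) 1 0 0 (-1) (by simp) (by simp; ring)
  have hB := emb_toLin b0 (X : K[X]) (1 - X ^ 2) 0 1 1 0 (by simp) (by simp; ring)
  have hE := emb_toLin b0 (4 + 3 * X : K[X]) (3 - 8 * X - 3 * X ^ 2) 4 3 3 (-4)
    (by simp [map_ofNat]) (by simp [map_ofNat]; ring)
  have n1 : (1 + X : K[X]).natDegree ≤ 1 := by compute_degree
  have n2 : (1 - X : K[X]).natDegree ≤ 1 := by compute_degree
  have n3 : (3 + X : K[X]).natDegree ≤ 1 := by compute_degree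
  have n4 : (1 - 3 * X : K[X]).natDegree ≤ 1 := by compute_degree
  have z1 : (1 + X : K[X]) ≠ 0 := fun h => by simpa using congrArg (Polynomial.eval 0) h
  have z2 : (1 - X : K[X]) ≠ 0 := fun h => by simpa using congrArg (Polynomial.eval 0) h
  have z3 : (3 + X : K[X]) ≠ 0 := fun h => by simpa using congrArg (Polynomial.eval 0) h
  have z4 : (1 - 3 * X : K[X]) ≠ 0 := fun h => by simpa using congrArg (Polynomial.eval 0) h
  have c5 : (C (5⁻¹ : K) : K[X]) * 5 = 1 := by
    rw [← map_ofNat C, ← map_mul, inv_mul_cancel₀ (by norm_num), map_one]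
  refine ⟨Matrix.toLin b0 b0 (symT d 1 0 0 (-1)), Matrix.toLin b0 b0 (symT d 0 1 1 0),
    Matrix.toLin b0 b0 (symT d 4 3 3 (-4)), ⟨⟨d + 1, b0, ?_, ?_, ?_⟩, ?_, ?_⟩, ?_⟩
  · rw [LinearMap.toMatrix_toLin]; exact symT_isDiag _ _ _
  · rw [LinearMap.toMatrix_toLin]; exact symT_irred _ _ _ _ _ one_ne_zero one_ne_zero
  · rw [LinearMap.toMatrix_toLin]; exact symT_irred _ _ _ _ _ (by norm_num) (by norm_num)
  · have e1 : (X : K[X]) * (1 + X) + (1 - X ^ 2) * derivative (1 + X) =
        C 1 * (1 + X) + C 0 * (1 - X) := by simp; ring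
    have e2 : (X : K[X]) * (1 - X) + (1 - X ^ 2) * derivative (1 - X) =
        C 0 * (1 + X) + C (-1) * (1 - X) := by simp; ring
    obtain ⟨b, hb⟩ := exists_basis b0 _ _ _ (1 + X) (1 - X) hB n1 n2 z1 z2 1 (-1) (by norm_num) e1 e2
    refine ⟨d + 1, b, ?_, ?_, ?_⟩
    · rw [toMatrix_fam b0 b _ _ _ _ _ hb hB n1 n2 _ _ _ _ e1 e2]; exact symT_isDiag _ _ _
    · rw [toMatrix_fam b0 b _ _ _ _ _ hb hA n1 n2 0 1 1 0 (by simp; ring) (by simp; ring)]
      exact symT_irred _ _ _ _ _ one_ne_zero one_ne_zero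
    · rw [toMatrix_fam b0 b _ _ _ _ _ hb hE n1 n2 3 4 4 (-3)
        (by simp [map_ofNat]; ring) (by simp [map_ofNat]; ring)]
      exact symT_irred _ _ _ _ _ (by norm_num) (by norm_num)
  · have e1 : (4 + 3 * X : K[X]) * (3 + X) + (3 - 8 * X - 3 * X ^ 2) * derivative (3 + X) =
        C 5 * (3 + X) + C 0 * (1 - 3 * X) := by simp [map_ofNat]; ring
    have e2 : (4 + 3 * X : K[X]) * (1 - 3 * X) + (3 - 8 * X - 3 * X ^ 2) * derivative (1 - 3 * X) =
        C 0 * (3 + X) + C (-5) * (1 - 3 * X) := by simp [map_ofNat]; ring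
    obtain ⟨b, hb⟩ := exists_basis b0 _ _ _ (3 + X) (1 - 3 * X) hE n3 n4 z3 z4 5 (-5)
      (by norm_num) e1 e2
    refine ⟨d + 1, b, ?_, ?_, ?_⟩
    · rw [toMatrix_fam b0 b _ _ _ _ _ hb hE n3 n4 _ _ _ _ e1 e2]; exact symT_isDiag _ _ _
    · rw [toMatrix_fam b0 b _ _ _ _ _ hb hA n3 n4 (4 * 5⁻¹) (3 * 5⁻¹) (3 * 5⁻¹) (-4 * 5⁻¹)
        (by simp only [map_mul, map_ofNat]; simp; linear_combination (X - 3) * c5)
        (by simp only [map_mul, map_neg, map_ofNat]; simp; linear_combination (-1 - 3 * X) * c5)]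
      exact symT_irred _ _ _ _ _ (by norm_num) (by norm_num)
    · rw [toMatrix_fam b0 b _ _ _ _ _ hb hB n3 n4 (3 * 5⁻¹) (-4 * 5⁻¹) (-4 * 5⁻¹) (-3 * 5⁻¹)
        (by simp only [map_mul, map_neg, map_ofNat]; simp; linear_combination (-1 - 3 * X) * c5)
        (by simp only [map_mul, map_neg, map_ofNat]; simp; linear_combination (3 - X) * c5)]
      exact symT_irred _ _ _ _ _ (by norm_num) (by norm_num)
  · intro q hq
    obtain ⟨x0, y, hy, hq⟩ := Submodule.mem_span_insert.1 hq
    obtain ⟨x1, z, hz, rfl⟩ := Submodule.mem_span_insert.1 hy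
    obtain ⟨x2, x3, rfl⟩ := Submodule.mem_span_pair.1 hz
    have hM := congrArg (LinearMap.toMatrix b0 b0) hq
    simp only [map_sub, map_add, map_smul, LinearMap.toMatrix_comp b0 b0 b0,
      LinearMap.toMatrix_toLin, LinearMap.toMatrix_id] at hM
    have hdiag : symT d (1 : K) 0 0 (-1) =
        Matrix.diagonal fun i : Fin (d + 1) => ((d - i : ℕ) : K) * 1 + (i : ℕ) * (-1) := by
      ext j i
      rw [symT_diag, Matrix.diagonal_apply]
      split_ifs with h
      · rw [h]
      · rfl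
    rw [hdiag] at hM
    obtain ⟨m, rfl⟩ : ∃ m, d = m + 2 := ⟨d - 2, by omega⟩
    have h01 := congrFun (congrFun hM ⟨0, by omega⟩) ⟨1, by omega⟩
    have h10 := congrFun (congrFun hM ⟨1, by omega⟩) ⟨0, by omega⟩
    have h12 := congrFun (congrFun hM ⟨1, by omega⟩) ⟨2, by omega⟩
    simp [Matrix.diagonal_mul, Matrix.mul_diagonal, symT, Fin.ext_iff] at h01 h10 h12
    have hm : ((m : K) + 2) ≠ 0 := by exact_mod_cast (by omega : m + 2 ≠ 0)
    have k1 : ((m : K) + 2) * (2 * (1 + q)) = 0 := by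
      linear_combination ((m : K) + 2) * h01 - h10
    have k2 : q = -1 := by
      rcases mul_eq_zero.1 k1 with h | h
      · exact absurd h hm
      · linear_combination h / 2
    subst k2
    have : (8 : K) = 0 := by linear_combination 2 * h01 - h12
    norm_num at this

end Pool.Agent.Results.MP_4722b0_al.Disproof
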