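import Pool.Agent.P.MP_4722b0_al.X.Main

namespace Pool.Agent.Results.MP_4722b0_al.ExactRange

open Module Pool.Agent.P.MP_4722b0_al.X

/-- The fields and dimensions in which the `q`-commutator conjecture for Leonard triples fails. -/
theorem result (K V : Type) [Field K] [AddCommGroup V] [Module K V] [FiniteDimensional K V] :
    (∃ A B E : V →ₗ[K] V, IsLeonardTriple A B E ∧ ∀ q : K, q ≠ 0 → ¬ QComm q A B E) ↔
      3 ≤ finrank K V ∧
        (ringChar K = 0 ∨ (ringChar K ≠ 2 ∧ finrank K V ≤ ringChar K ∧ Nat.card K ≠ 3) ∨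
          (ringChar K = 2 ∧ finrank K V ≤ 4 ∧ (2 : Cardinal) ^ finrank K V ≤ Cardinal.mk K)) := by
  constructor
  · rintro ⟨A, B, E, h, hq⟩
    have u : ¬ (finrank K V ≤ 2 ∨ Ind A B E) := fun u =>
      have ⟨q, q0, e⟩ := (qcomm_iff h).2 u
      hq q q0 e
    rw [not_or] at u
    exact ⟨by omega, (dep_iff (by omega)).1 ⟨A, B, E, h, u.2⟩⟩
  · rintro ⟨hn, h⟩
    obtain ⟨A, B, E, h, hi⟩ := (dep_iff hn).2 h
    exact ⟨A, B, E, h, fun q q0 e => ((qcomm_iff h).1 ⟨q, q0, e⟩).elim (by omega) hi⟩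

end Pool.Agent.Results.MP_4722b0_al.ExactRange
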