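import Pool.Agent.P.MP_4722b0_al.X.Main

namespace Pool.Agent.Results.MP_4722b0_al.IndependentIff

open Module Pool.Agent.P.MP_4722b0_al.X

/-- A Leonard triple satisfies the three `q`-commutator relations for some nonzero `q` exactly
when the dimension is at most two or `I, A, B, E` are linearly independent. -/
theorem result (K V : Type) [Field K] [AddCommGroup V] [Module K V] [FiniteDimensional K V]
    (A B E : V →ₗ[K] V) (h : IsLeonardTriple A B E) :
    (∃ q : K, q ≠ 0 ∧ QComm q A B E) ↔
      finrank K V ≤ 2 ∨ LinearIndependent K ![LinearMap.id, A, B, E] := by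
  rw [ind_iff]
  exact qcomm_iff h

end Pool.Agent.Results.MP_4722b0_al.IndependentIff
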